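import Mathlib

/-! # A unit-cancellative monoid with ACCP that is not acyclic -/

namespace Pool.Agent.Results.MP_1d13cc_al.Counterexample

section defs
variable (H : Type*) [Monoid H]

/-- `xy ≠ x` and `yx ≠ x` whenever `y` is not a unit -/
def UnitCancellative : Prop := ∀ x y : H, ¬ IsUnit y → x * y ≠ x ∧ y * x ≠ x

/-- `uxv ≠ x` whenever `u` or `v` is not a unit -/
def Acyclic : Prop := ∀ u v x : H, (¬ IsUnit u ∨ ¬ IsUnit v) → u * x * v ≠ x

variable {H} in
/-- the principal two-sided ideal `HaH` -/
def principalIdeal (a : H) : Set H := {z | ∃ x y : H, z = x * a * y}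

/-- there is no infinite strictly increasing sequence of principal ideals -/
def ACCP : Prop := ¬ ∃ a : ℕ → H, ∀ n, principalIdeal (a n) ⊂ principalIdeal (a (n + 1))

end defs

/-- The carrier of the example. -/
inductive M : Type
  | uv (i j : ℕ) : M
  | el (m b c : ℕ) (d : ℤ) : M

namespace M

/-- the multiplication -/
def mul : M → M → M
  | uv i j, uv i' j' => uv (i + i') (j + j')
  | uv i j, el m b c d => el m (b + j) c (d + i)
  | el m b c d, uv i j => el m b (c + i) (d - j)
  | el m b c d, el m' b' c' d' => el (m + m' + 1) b c' (d + d' + c - b')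

theorem mul_assoc' (x y z : M) : mul (mul x y) z = mul x (mul y z) := by
  cases x <;> cases y <;> cases z <;> simp only [mul, uv.injEq, el.injEq, Nat.cast_add] <;> grind

instance : Monoid M where
  mul := mul
  one := uv 0 0
  mul_assoc := mul_assoc'
  one_mul x := by
    change mul (uv 0 0) x = x
    cases x <;> simp [mul]
  mul_one x := by
    change mul x (uv 0 0) = x
    cases x <;> simp [mul]

@[simp] theorem uv_mul_uv (i j i' j' : ℕ) : uv i j * uv i' j' = uv (i + i') (j + j') := rfl
@[simp] theorem uv_mul_el (i j m b c : ℕ) (d : ℤ) :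
    uv i j * el m b c d = el m (b + j) c (d + i) := rfl
@[simp] theorem el_mul_uv (i j m b c : ℕ) (d : ℤ) :
    el m b c d * uv i j = el m b (c + i) (d - j) := rfl
@[simp] theorem el_mul_el (m b c : ℕ) (d : ℤ) (m' b' c' : ℕ) (d' : ℤ) :
    el m b c d * el m' b' c' d' = el (m + m' + 1) b c' (d + d' + c - b') := rfl
theorem one_def : (1 : M) = uv 0 0 := rfl

theorem eq_one_of_isUnit {x : M} (hx : IsUnit x) : x = 1 := by
  obtain ⟨y, hy⟩ := hx.exists_right_inv
  cases x <;> cases y <;> simp_all [one_def]

theorem unitCancellative : UnitCancellative M := by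
  intro x y hy
  have hy1 : y ≠ 1 := fun h => hy (h ▸ isUnit_one)
  constructor
  · intro h
    apply hy1
    cases x <;> cases y <;> simp_all [one_def] <;> omega
  · intro h
    apply hy1
    cases x <;> cases y <;> simp_all [one_def] <;> omega

theorem not_acyclic : ¬ Acyclic M := by
  intro h
  refine h (uv 1 0) (uv 0 1) (el 0 0 0 0) (Or.inl fun hu => ?_) ?_
  · have := eq_one_of_isUnit hu
    simp [one_def] at this
  · simp

/-- the rank of an element -/
def rk : M → ℕ ×ₗ ℕ
  | uv i j => toLex (0, i + j)
  | el m b c _ => toLex (m + 1, b + c)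

theorem mem_self (a : M) : a ∈ principalIdeal a := ⟨1, 1, by simp⟩

theorem ideal_subset {a b : M} (h : a ∈ principalIdeal b) :
    principalIdeal a ⊆ principalIdeal b := by
  rintro z ⟨x, y, rfl⟩
  obtain ⟨x', y', rfl⟩ := h
  exact ⟨x * x', y' * y, by simp only [mul_assoc]⟩

theorem mem_shift (m b c : ℕ) (d d' : ℤ) : el m b c d ∈ principalIdeal (el m b c d') := by
  rcases le_total d' d with h | h
  · refine ⟨uv (d - d').toNat 0, 1, ?_⟩
    rw [mul_one, uv_mul_el]
    simp only [add_zero, el.injEq, true_and]
    rw [Int.toNat_of_nonneg (by omega)]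
    omega
  · refine ⟨1, uv 0 (d' - d).toNat, ?_⟩
    rw [one_mul, el_mul_uv]
    simp only [add_zero, el.injEq, true_and]
    rw [Int.toNat_of_nonneg (by omega)]
    omega

theorem key {a b : M} (h : a ∈ principalIdeal b) : b ∈ principalIdeal a ∨ rk b < rk a := by
  obtain ⟨x, y, rfl⟩ := h
  rcases b with ⟨i, j⟩ | ⟨m, b, c, d⟩ <;> rcases x with ⟨i1, j1⟩ | ⟨m1, b1, c1, d1⟩ <;>
    rcases y with ⟨i2, j2⟩ | ⟨m2, b2, c2, d2⟩
  · by_cases h0 : i1 + j1 + i2 + j2 = 0
    · left
      have h1 : i1 = 0 := by omega
      have h2 : j1 = 0 := by omega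
      have h3 : i2 = 0 := by omega
      have h4 : j2 = 0 := by omega
      subst h1 h2 h3 h4
      refine ⟨1, 1, ?_⟩
      simp
    · right
      refine Prod.Lex.toLex_lt_toLex.mpr ?_
      dsimp only
      omega
  · right
    refine Prod.Lex.toLex_lt_toLex.mpr ?_
    dsimp only
    omega
  · right
    refine Prod.Lex.toLex_lt_toLex.mpr ?_
    dsimp only
    omega
  · right
    refine Prod.Lex.toLex_lt_toLex.mpr ?_
    dsimp only
    omega
  · by_cases h0 : j1 + i2 = 0
    · left
      have h2 : j1 = 0 := by omega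
      have h3 : i2 = 0 := by omega
      subst h2 h3
      simpa using mem_shift m b c d (d + i1 - j2)
    · right
      refine Prod.Lex.toLex_lt_toLex.mpr ?_
      dsimp only
      omega
  · right
    refine Prod.Lex.toLex_lt_toLex.mpr ?_
    dsimp only
    omega
  · right
    refine Prod.Lex.toLex_lt_toLex.mpr ?_
    dsimp only
    omega
  · right
    refine Prod.Lex.toLex_lt_toLex.mpr ?_
    dsimp only
    omega

theorem accp : ACCP M := by
  rintro ⟨a, ha⟩
  have h : ∀ n, rk (a (n + 1)) < rk (a n) := by
    intro n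
    have h1 : a n ∈ principalIdeal (a (n + 1)) := (ha n).1 (mem_self _)
    rcases key h1 with h2 | h2
    · exact absurd (ideal_subset h2) (ha n).2
    · exact h2
  obtain ⟨n, hn⟩ := WellFounded.not_rel_apply_succ (r := ((· < ·) : ℕ ×ₗ ℕ → ℕ ×ₗ ℕ → Prop))
    (fun n => rk (a n))
  exact hn (h n)

theorem fg : Monoid.FG M := by
  rw [Monoid.fg_iff]
  refine ⟨{uv 1 0, uv 0 1, el 0 0 0 0}, ?_, by simp⟩
  rw [eq_top_iff]
  intro x _
  set S := Submonoid.closure ({uv 1 0, uv 0 1, el 0 0 0 0} : Set M) with hS
  have hu : ∀ i, uv i 0 ∈ S := by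
    intro i
    induction i with
    | zero => exact S.one_mem
    | succ i ih =>
      have := S.mul_mem ih (Submonoid.subset_closure (by simp) : uv 1 0 ∈ S)
      simpa using this
  have hv : ∀ i, uv 0 i ∈ S := by
    intro i
    induction i with
    | zero => exact S.one_mem
    | succ i ih =>
      have := S.mul_mem ih (Submonoid.subset_closure (by simp) : uv 0 1 ∈ S)
      simpa using this
  have huv : ∀ i j, uv i j ∈ S := by
    intro i j
    have := S.mul_mem (hu i) (hv j)
    simpa using this
  have he : ∀ m, el m 0 0 0 ∈ S := by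
    intro m
    induction m with
    | zero => exact Submonoid.subset_closure (by simp)
    | succ m ih =>
      have := S.mul_mem ih (Submonoid.subset_closure (by simp) : el 0 0 0 0 ∈ S)
      simpa using this
  rcases x with ⟨i, j⟩ | ⟨m, b, c, d⟩
  · exact huv i j
  · rcases le_total 0 d with h | h
    · have := S.mul_mem (S.mul_mem (huv d.toNat b) (he m)) (huv c 0)
      simpa [Int.toNat_of_nonneg h] using this
    · have := S.mul_mem (S.mul_mem (huv 0 b) (he m)) (huv c (-d).toNat)
      simpa [Int.toNat_of_nonneg (neg_nonneg.mpr h)] using this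

end M

/-- **The answer to Q1 is negative**: there is a unit-cancellative monoid with ACCP which is not
acyclic; it is moreover finitely generated and its only unit is the identity. -/
theorem result : ∃ (H : Type) (_ : Monoid H),
    UnitCancellative H ∧ ACCP H ∧ ¬ Acyclic H ∧ Monoid.FG H ∧ ∀ x : H, IsUnit x → x = 1 :=
  ⟨M, inferInstance, M.unitCancellative, M.accp, M.not_acyclic, M.fg, fun _ => M.eq_one_of_isUnit⟩

end Pool.Agent.Results.MP_1d13cc_al.Counterexample
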